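import Mathlib

set_option autoImplicit false

namespace Pool.Agent.BezHen

open AlgebraicIndependent

/-- the matroid of algebraic independence over `ℚ` in `ℂ`. -/
noncomputable abbrev Mt : Matroid ℂ := AlgebraicIndependent.matroid ℚ ℂ

theorem indep_of_rank (a : ℕ → ℂ) (J : Set ℕ) (hJ : J.Finite)
    (h : J.encard ≤ Mt.eRk (a '' J)) : AlgebraicIndependent ℚ (fun j : J => a j) := by
  have h1 : (a '' J).encard ≤ J.encard := Set.encard_image_le a J
  have h2 : Mt.eRk (a '' J) ≤ (a '' J).encard := Mt.eRk_le_encard _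
  have h3 : (a '' J).encard = J.encard := le_antisymm h1 (h.trans h2)
  have h4 : Mt.eRk (a '' J) = (a '' J).encard := le_antisymm h2 (h3 ▸ h)
  have h5 : Mt.Indep (a '' J) := (Matroid.indep_iff_eRk_eq_encard_of_finite (hJ.image a)).mpr h4
  have h6 : Set.InjOn a J := Set.Finite.injOn_of_encard_image_eq hJ h3
  have h7 : AlgebraicIndependent ℚ ((↑) : (a '' J) → ℂ) := h5
  have h8 := h7.comp (fun j : J => (⟨a j, Set.mem_image_of_mem a j.2⟩ : a '' J)) (by
    intro i j hij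
    exact Subtype.ext (h6 i.2 j.2 (by simpa using hij)))
  exact h8

theorem exists_removed (a : ℕ → ℂ) (h : ∀ m : ℕ, (m : ℕ∞) ≤ Mt.eRk (a '' Set.Iio m) + 1) :
    ∃ k, AlgebraicIndependent ℚ (fun j : {j : ℕ // j ≠ k} => a j) := by
  have hins : ∀ k m : ℕ, k < m → a '' Set.Iio m = insert (a k) (a '' (Set.Iio m \ {k})) := by
    intro k m hkm
    rw [← Set.image_insert_eq]
    congr 1
    ext j
    simp only [Set.mem_Iio, Set.mem_insert_iff, Set.mem_sdiff, Set.mem_singleton_iff]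
    constructor
    · intro hj
      by_cases hjk : j = k
      · exact Or.inl hjk
      · exact Or.inr ⟨hj, hjk⟩
    · rintro (rfl | ⟨hj, _⟩)
      · exact hkm
      · exact hj
  obtain ⟨k, hk⟩ : ∃ k : ℕ, ∀ m, k < m → (m : ℕ∞) ≤ Mt.eRk (a '' (Set.Iio m \ {k})) + 1 := by
    by_cases hA : ∃ n, a n ∈ Mt.closure (a '' Set.Iio n)
    · obtain ⟨k, hk⟩ := hA
      refine ⟨k, fun m hkm => ?_⟩
      have h1 : a k ∈ Mt.closure (a '' (Set.Iio m \ {k})) := by
        refine Mt.closure_subset_closure (Set.image_mono ?_) hk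
        intro j hj
        simp only [Set.mem_Iio, Set.mem_sdiff, Set.mem_singleton_iff] at hj ⊢
        omega
      have h2 := h m
      rw [hins k m hkm] at h2
      have h3 : Mt.eRk (insert (a k) (a '' (Set.Iio m \ {k}))) =
          Mt.eRk (a '' (Set.Iio m \ {k})) := by
        rw [← Mt.eRk_closure_eq (insert (a k) (a '' (Set.Iio m \ {k}))),
          Matroid.closure_insert_eq_of_mem_closure h1, Mt.eRk_closure_eq]
      rwa [h3] at h2
    · push Not at hA
      have hr : ∀ m : ℕ, Mt.eRk (a '' Set.Iio m) = m := by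
        intro m
        induction m with
        | zero => simp
        | succ m ih =>
          have h1 : a '' Set.Iio (m + 1) = insert (a m) (a '' Set.Iio m) := by
            rw [← Set.image_insert_eq]
            congr 1
            ext j
            simp only [Set.mem_Iio, Set.mem_insert_iff]
            omega
          rw [h1, Matroid.eRk_insert_eq_add_one ⟨Set.mem_univ _, hA m⟩, ih]
          push_cast
          rfl
      refine ⟨0, fun m hm => ?_⟩
      rw [← hr m, hins 0 m hm]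
      exact Mt.eRk_insert_le_add_one _ _
  refine ⟨k, ?_⟩
  apply algebraicIndependent_of_finite_type
  intro t ht
  obtain ⟨m, hm⟩ : ∃ m : ℕ, k < m ∧ ∀ j ∈ t, (j : ℕ) < m := by
    obtain ⟨b, hb⟩ := (ht.image (fun j : {j : ℕ // j ≠ k} => (j : ℕ))).bddAbove
    refine ⟨max b k + 1, by omega, fun j hj => ?_⟩
    have := hb (Set.mem_image_of_mem _ hj)
    omega
  have h1 : (Set.Iio m \ {k}).encard + 1 = m := by
    rw [Set.encard_sdiff_singleton_add_one (Set.mem_Iio.mpr hm.1)]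
    rw [← Set.Finite.cast_ncard_eq (Set.finite_Iio m)]
    simp
  have h2 : (Set.Iio m \ {k}).encard ≤ Mt.eRk (a '' (Set.Iio m \ {k})) := by
    have h3 := hk m hm.1
    rw [← h1] at h3
    exact (ENat.add_le_add_iff_right ENat.one_ne_top).mp h3
  have h4 := indep_of_rank a (Set.Iio m \ {k}) ((Set.finite_Iio m).subset Set.sdiff_subset) h2
  have h5 := h4.comp (fun j : t => (⟨(j : {j : ℕ // j ≠ k}), ⟨hm.2 j.1 j.2, j.1.2⟩⟩ :
    (Set.Iio m \ {k} : Set ℕ))) (by
      intro i j hij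
      exact Subtype.ext (Subtype.ext
        (congrArg (fun z : (Set.Iio m \ {k} : Set ℕ) => (z : ℕ)) hij)))
  exact h5

theorem eRk_conj_le (S : Set ℂ) : Mt.eRk ((starRingEnd ℂ) '' S) ≤ Mt.eRk S := by
  have hinv : ∀ z : ℂ, (starRingEnd ℂ) ((starRingEnd ℂ) z) = z := Complex.conj_conj
  have hinj : Function.Injective (starRingEnd ℂ) := fun x y h => by
    rw [← hinv x, h, hinv y]
  obtain ⟨I, hI⟩ := Mt.exists_isBasis ((starRingEnd ℂ) '' S) (Set.subset_univ _)
  have hInd : Mt.Indep ((starRingEnd ℂ) '' I) := by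
    have h1 : AlgebraicIndependent ℚ ((↑) : I → ℂ) := hI.indep
    let c : ℂ →ₐ[ℚ] ℂ := (Complex.conjAe.restrictScalars ℚ).toAlgHom
    have h2 := h1.map' (f := c) (by exact hinj)
    have h3 := h2.to_subtype_range
    have h4 : Set.range (c ∘ ((↑) : I → ℂ)) = (starRingEnd ℂ) '' I := by
      rw [Set.range_comp, Subtype.range_coe]
      rfl
    rw [h4] at h3
    exact h3
  rw [hI.eRk_eq_encard.trans (hinj.encard_image I).symm]
  apply hInd.encard_le_eRk_of_subset
  rintro z ⟨w, hw, rfl⟩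
  obtain ⟨v, hv, rfl⟩ := hI.subset hw
  rw [hinv]
  exact hv

theorem rank_bound (u : ℕ → ℂ) (hu : AlgebraicIndependent ℚ u) (T : Set ℂ) (hT : T.encard ≤ 3)
    (a : ℕ → ℂ) (m : ℕ)
    (h : ∀ i < 2 * m, u i ∈ Mt.closure (T ∪ (a '' Set.Iio m ∪ (starRingEnd ℂ) '' (a '' Set.Iio m)))) :
    (m : ℕ∞) ≤ Mt.eRk (a '' Set.Iio m) + 1 := by
  have h1 : Mt.Indep (u '' Set.Iio (2 * m)) := by
    have h2 : AlgebraicIndependent ℚ (fun j : (Set.Iio (2 * m) : Set ℕ) => u j) :=
      hu.comp _ Subtype.val_injective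
    exact h2.image
  have h2 : (u '' Set.Iio (2 * m)).encard = ((2 * m : ℕ) : ℕ∞) := by
    rw [hu.injective.encard_image, ← Set.Finite.cast_ncard_eq (Set.finite_Iio (2 * m))]
    simp
  have h3 : ((2 * m : ℕ) : ℕ∞) ≤ 3 + (Mt.eRk (a '' Set.Iio m) + Mt.eRk (a '' Set.Iio m)) := by
    calc ((2 * m : ℕ) : ℕ∞) = Mt.eRk (u '' Set.Iio (2 * m)) := by rw [h1.eRk_eq_encard, h2]
      _ ≤ Mt.eRk (Mt.closure (T ∪ (a '' Set.Iio m ∪ (starRingEnd ℂ) '' (a '' Set.Iio m)))) := by
          apply Mt.eRk_mono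
          rintro _ ⟨i, hi, rfl⟩
          exact h i hi
      _ = Mt.eRk (T ∪ (a '' Set.Iio m ∪ (starRingEnd ℂ) '' (a '' Set.Iio m))) :=
          Mt.eRk_closure_eq _
      _ ≤ Mt.eRk T + Mt.eRk (a '' Set.Iio m ∪ (starRingEnd ℂ) '' (a '' Set.Iio m)) :=
          Mt.eRk_union_le_eRk_add_eRk _ _
      _ ≤ 3 + (Mt.eRk (a '' Set.Iio m) + Mt.eRk ((starRingEnd ℂ) '' (a '' Set.Iio m))) :=
          add_le_add ((Mt.eRk_le_encard T).trans hT) (Mt.eRk_union_le_eRk_add_eRk _ _)
      _ ≤ 3 + (Mt.eRk (a '' Set.Iio m) + Mt.eRk (a '' Set.Iio m)) := by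
          gcongr
          exact eRk_conj_le _
  have hfin : Mt.eRk (a '' Set.Iio m) ≠ ⊤ := by
    have h4 : (a '' Set.Iio m).Finite := (Set.finite_Iio m).image a
    have h5 := (Mt.eRk_le_encard (a '' Set.Iio m)).trans_lt h4.encard_lt_top
    exact h5.ne
  obtain ⟨r, hr⟩ := ENat.ne_top_iff_exists.mp hfin
  rw [← hr] at h3 ⊢
  norm_cast at h3 ⊢
  omega

end Pool.Agent.BezHen
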