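import Mathlib
import Pool.Agent.BezHen.Rank

set_option autoImplicit false

namespace Pool.Agent.BezHen

open Cardinal

/-- countably many real numbers which are algebraically independent over `ℚ`. -/
theorem exists_param : ∃ u : ℕ → ℝ, AlgebraicIndependent ℚ (fun i => (u i : ℂ)) := by
  obtain ⟨ι, x, hx⟩ := exists_isTranscendenceBasis' ℚ ℝ
  have hR : ¬ (#ℝ ≤ ℵ₀) := by
    rw [not_le, Cardinal.mk_real]
    exact Cardinal.aleph0_lt_continuum
  have hinf : Infinite ι := by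
    by_contra hfin
    rw [not_infinite_iff_finite] at hfin
    rcases isEmpty_or_nonempty ι with hE | hN
    · have halg : Algebra.IsAlgebraic ℚ ℝ := hx.isEmpty_iff_isAlgebraic.mp hE
      apply hR
      have := Algebra.IsAlgebraic.cardinalMk_le_max ℚ ℝ
      refine this.trans ?_
      simp
    · have h1 := hx.lift_cardinalMk_eq_max_lift
      apply hR
      have h2 : Cardinal.lift.{0} #ℝ ≤ ℵ₀ := by
        rw [h1]
        simp only [Cardinal.lift_id, sup_le_iff]
        refine ⟨⟨by simp, ?_⟩, le_rfl⟩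
        exact Cardinal.mk_le_aleph0
      simpa using h2
  let emb : ℕ ↪ ι := Infinite.natEmbedding ι
  have h1 : AlgebraicIndependent ℚ (x ∘ emb) := hx.1.comp emb emb.injective
  let c : ℝ →ₐ[ℚ] ℂ := Complex.ofRealAm.restrictScalars ℚ
  have h2 := h1.map' (f := c) (by exact Complex.ofReal_injective)
  exact ⟨x ∘ emb, h2⟩

/-- the closure of `G` as a subalgebra. -/
noncomputable def ClSub (G : Set ℂ) : Subalgebra ℚ ℂ :=
  (Subalgebra.algebraicClosure (Algebra.adjoin ℚ G) ℂ).restrictScalars ℚ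

theorem mem_ClSub_iff {G : Set ℂ} {z : ℂ} : z ∈ ClSub G ↔ IsAlgebraic (Algebra.adjoin ℚ G) z := by
  rw [ClSub, Subalgebra.mem_restrictScalars]
  exact Subalgebra.mem_algebraicClosure _ _

theorem mem_closure_iff {G : Set ℂ} {z : ℂ} : z ∈ Mt.closure G ↔ z ∈ ClSub G := by
  rw [mem_ClSub_iff, AlgebraicIndependent.matroid_closure_eq]
  exact Subalgebra.mem_algebraicClosure _ _

theorem subset_ClSub {G : Set ℂ} {z : ℂ} (hz : z ∈ G) : z ∈ ClSub G := by
  rw [← mem_closure_iff]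
  exact Mt.mem_closure_of_mem hz

theorem inv_mem_ClSub {G : Set ℂ} {z : ℂ} (hz : z ∈ ClSub G) : z⁻¹ ∈ ClSub G := by
  rw [mem_ClSub_iff] at hz ⊢
  exact hz.inv

theorem div_mem_ClSub {G : Set ℂ} {z w : ℂ} (hz : z ∈ ClSub G) (hw : w ∈ ClSub G) :
    z / w ∈ ClSub G := by
  rw [div_eq_mul_inv]
  exact mul_mem hz (inv_mem_ClSub hw)

theorem of_sq_mem_ClSub {G : Set ℂ} {z : ℂ} (hz : z ^ 2 ∈ ClSub G) : z ∈ ClSub G := by
  rw [mem_ClSub_iff] at hz ⊢
  exact hz.of_pow (by norm_num)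

theorem natCast_mem_ClSub {G : Set ℂ} (n : ℕ) : (n : ℂ) ∈ ClSub G := natCast_mem _ n

theorem I_mem_ClSub {G : Set ℂ} : Complex.I ∈ ClSub G := by
  apply of_sq_mem_ClSub
  rw [Complex.I_sq]
  exact neg_mem (one_mem _)

theorem aeval_mem_ClSub {G : Set ℂ} {a : ℕ → ℂ} (ha : ∀ i, a i ∈ ClSub G)
    (p : MvPolynomial ℕ ℚ) : MvPolynomial.aeval a p ∈ ClSub G := by
  induction p using MvPolynomial.induction_on with
  | C r => rw [MvPolynomial.aeval_C]; exact Subalgebra.algebraMap_mem _ r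
  | add p q hp hq => rw [map_add]; exact add_mem hp hq
  | mul_X p i hp => rw [map_mul, MvPolynomial.aeval_X]; exact mul_mem hp (ha i)

end Pool.Agent.BezHen
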