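import Mathlib

set_option autoImplicit false

namespace Pool.Agent.BezHen

open Polynomial

theorem gauss {S F : Type*} [CommRing S] [IsDomain S] [UniqueFactorizationMonoid S] [Field F]
    (φ : S →+* F) (hφ : Function.Injective φ) (c : F) (p q : Polynomial S)
    (hrel : IsRelPrime p q) (hp : p.eval₂ φ c = 0) (hq : q.eval₂ φ c = 0) : False := by
  classical
  let _ : StrongNormalizationMonoid S := UniqueFactorizationMonoid.strongNormalizationMonoid
  let _ : StrongNormalizedGCDMonoid S := UniqueFactorizationMonoid.toStrongNormalizedGCDMonoid S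
  by_cases hp0 : p = 0
  · subst hp0
    have h1 : IsUnit q := hrel (dvd_zero q) dvd_rfl
    have h2 := h1.map (Polynomial.eval₂RingHom φ c)
    rw [Polynomial.coe_eval₂RingHom, hq] at h2
    exact not_isUnit_zero h2
  obtain ⟨g, hg, hgp, hgc⟩ : ∃ g, Irreducible g ∧ g ∣ p ∧ g.eval₂ φ c = 0 := by
    obtain ⟨f, hf, hfp⟩ := WfDvdMonoid.exists_factors p hp0
    have h1 : (f.map (Polynomial.eval₂RingHom φ c)).prod = 0 := by
      rw [← map_multiset_prod]
      obtain ⟨u, hu⟩ := hfp
      have h3 : (Polynomial.eval₂RingHom φ c) (f.prod * u) = 0 := by rw [hu]; exact hp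
      rw [map_mul] at h3
      rcases mul_eq_zero.mp h3 with h | h
      · exact h
      · exact absurd h (u.isUnit.map (Polynomial.eval₂RingHom φ c)).ne_zero
    obtain ⟨g, hgf, hg0⟩ := Multiset.mem_map.mp (Multiset.prod_eq_zero_iff.mp h1)
    exact ⟨g, hf g hgf, (Multiset.dvd_prod hgf).trans hfp.dvd, hg0⟩
  have hdeg : g.natDegree ≠ 0 := by
    intro h0
    obtain ⟨s, hs⟩ := Polynomial.natDegree_eq_zero.mp h0
    rw [← hs, Polynomial.eval₂_C] at hgc
    have : s = 0 := hφ (by rw [hgc, map_zero])
    rw [this, map_zero] at hs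
    exact hg.ne_zero hs.symm
  have hprim : g.IsPrimitive := hg.isPrimitive hdeg
  have hmap : Irreducible (g.map (algebraMap S (FractionRing S))) :=
    (hprim.irreducible_iff_irreducible_map_fraction_map (K := FractionRing S)).mp hg
  let ψ : FractionRing S →+* F := IsFractionRing.lift hφ
  have hψ : ψ.comp (algebraMap S (FractionRing S)) = φ := by
    ext s
    simp [ψ, IsFractionRing.lift_algebraMap]
  have hev : ∀ r : S[X], (r.map (algebraMap S (FractionRing S))).eval₂ ψ c = r.eval₂ φ c := by
    intro r
    rw [Polynomial.eval₂_map, hψ]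
  by_cases hdvd : g.map (algebraMap S (FractionRing S)) ∣ q.map (algebraMap S (FractionRing S))
  · have hgq : g ∣ q := by
      by_cases hq0 : q = 0
      · rw [hq0]; exact dvd_zero g
      rw [q.eq_C_content_mul_primPart] at hdvd ⊢
      rw [Polynomial.map_mul, Polynomial.map_C] at hdvd
      have hu : IsUnit (Polynomial.C (algebraMap S (FractionRing S) q.content)) := by
        rw [Polynomial.isUnit_C]
        rw [isUnit_iff_ne_zero]
        intro h
        have h5 := (IsFractionRing.injective S (FractionRing S)) (h.trans (map_zero _).symm)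
        exact hq0 (Polynomial.content_eq_zero_iff.mp h5)
      have h6 := (hu.dvd_mul_left).mp hdvd
      exact dvd_mul_of_dvd_right
        (hprim.dvd_of_fraction_map_dvd_fraction_map h6) _
    exact hg.not_isUnit (hrel hgp hgq)
  · have hcop : IsCoprime (g.map (algebraMap S (FractionRing S)))
        (q.map (algebraMap S (FractionRing S))) := (hmap.coprime_iff_not_dvd).mpr hdvd
    obtain ⟨a, b, hab⟩ := hcop
    have := congrArg (Polynomial.eval₂ ψ c) hab
    rw [Polynomial.eval₂_add, Polynomial.eval₂_mul, Polynomial.eval₂_mul, hev, hev, hgc, hq,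
      Polynomial.eval₂_one] at this
    simp at this

/-- If all but one of the `a j` are algebraically independent over `ℚ` then two relatively prime
polynomials do not vanish simultaneously at `a`. -/
theorem relprime_no_common_zero (a : ℕ → ℂ) (k : ℕ)
    (hind : AlgebraicIndependent ℚ (fun j : {j : ℕ // j ≠ k} => a j))
    (p q : MvPolynomial ℕ ℚ) (hrel : IsRelPrime p q)
    (hp : MvPolynomial.aeval a p = 0) (hq : MvPolynomial.aeval a q = 0) : False := by
  classical
  let e : ℕ ≃ Option {j : ℕ // j ≠ k} := (Equiv.optionSubtypeNe k).symm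
  let E : MvPolynomial ℕ ℚ ≃ₐ[ℚ] Polynomial (MvPolynomial {j : ℕ // j ≠ k} ℚ) :=
    (MvPolynomial.renameEquiv ℚ e).trans (MvPolynomial.optionEquivLeft ℚ {j : ℕ // j ≠ k})
  have hE : ∀ r : MvPolynomial ℕ ℚ, MvPolynomial.aeval a r =
      (E r).eval₂ ((MvPolynomial.aeval (fun j : {j : ℕ // j ≠ k} => a j)).toRingHom) (a k) := by
    intro r
    induction r using MvPolynomial.induction_on with
    | C r => simp [E]
    | add p q hp hq => rw [map_add, hp, hq, map_add, Polynomial.eval₂_add]
    | mul_X p i hp =>
      rw [map_mul, hp, map_mul, Polynomial.eval₂_mul]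
      congr 1
      rw [MvPolynomial.aeval_X]
      by_cases hi : i = k
      · subst hi
        have h1 : e i = none := by simp [e]
        simp [E, h1]
      · have h1 : e i = some ⟨i, hi⟩ := by simp [e, hi]
        simp [E, h1]
  have hrel' : IsRelPrime (E p) (E q) := by
    intro d hdp hdq
    have h1 : E.symm d ∣ p := by
      have := map_dvd E.symm hdp
      rwa [AlgEquiv.symm_apply_apply] at this
    have h2 : E.symm d ∣ q := by
      have := map_dvd E.symm hdq
      rwa [AlgEquiv.symm_apply_apply] at this
    have h3 := (hrel h1 h2).map E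
    rwa [AlgEquiv.apply_symm_apply] at h3
  refine gauss ((MvPolynomial.aeval (fun j : {j : ℕ // j ≠ k} => a j)).toRingHom) ?_ (a k)
    (E p) (E q) hrel' ?_ ?_
  · exact hind
  · rw [← hE]; exact hp
  · rw [← hE]; exact hq

end Pool.Agent.BezHen
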