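import Mathlib
import Pool.Agent.BezHen.Alg
import Pool.Agent.BezHen.Gauss

set_option autoImplicit false

namespace Pool.Agent.BezHen

open Complex

abbrev R := MvPolynomial ℕ ℚ
abbrev P := ℝ × ℝ × ℝ

noncomputable def N2 (v : P) : ℝ := 1 + v.1 ^ 2 + v.2.1 ^ 2 + v.2.2 ^ 2
noncomputable def J (v : P) : ℝ := Real.sqrt (N2 v)

theorem N2_ge (v : P) : 1 ≤ N2 v := by
  unfold N2; nlinarith [sq_nonneg v.1, sq_nonneg v.2.1, sq_nonneg v.2.2]
theorem N2_pos (v : P) : 0 < N2 v := lt_of_lt_of_le one_pos (N2_ge v)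
theorem J_pos (v : P) : 0 < J v := Real.sqrt_pos.mpr (N2_pos v)
theorem J_sq (v : P) : J v ^ 2 = N2 v := Real.sq_sqrt (N2_pos v).le
theorem N2_cont : Continuous N2 := by unfold N2; fun_prop
theorem J_cont : Continuous J := by unfold J; exact N2_cont.sqrt

/-- `sqrt(|A|^2 + |B|^2)` -/
noncomputable def rho (A B : P → ℂ) (v : P) : ℝ :=
  Real.sqrt (Complex.normSq (A v) + Complex.normSq (B v))

theorem rho_cont {A B : P → ℂ} (hA : Continuous A) (hB : Continuous B) : Continuous (rho A B) := by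
  unfold rho
  exact ((Complex.continuous_normSq.comp hA).add (Complex.continuous_normSq.comp hB)).sqrt

theorem rho_sq (A B : P → ℂ) (v : P) :
    rho A B v ^ 2 = Complex.normSq (A v) + Complex.normSq (B v) :=
  Real.sq_sqrt (add_nonneg (Complex.normSq_nonneg _) (Complex.normSq_nonneg _))

theorem rho_nonneg (A B : P → ℂ) (v : P) : 0 ≤ rho A B v := Real.sqrt_nonneg _

theorem norm_le_rho_left (A B : P → ℂ) (v : P) : ‖A v‖ ≤ rho A B v := by
  apply Real.le_sqrt_of_sq_le
  rw [Complex.normSq_eq_norm_sq, Complex.normSq_eq_norm_sq]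
  nlinarith [sq_nonneg ‖B v‖]

theorem norm_le_rho_right (A B : P → ℂ) (v : P) : ‖B v‖ ≤ rho A B v := by
  apply Real.le_sqrt_of_sq_le
  rw [Complex.normSq_eq_norm_sq, Complex.normSq_eq_norm_sq]
  nlinarith [sq_nonneg ‖A v‖]

open Classical in
/-- the function to be approximated at a given stage -/
noncomputable def task (A B : P → ℂ) (b : Bool) (v : P) : ℂ :=
  if ∀ w, rho A B w ≠ 0 then (starRingEnd ℂ (if b then A v else B v)) / (rho A B v : ℂ) else 0

theorem task_cont {A B : P → ℂ} (hA : Continuous A) (hB : Continuous B) (b : Bool) :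
    Continuous (task A B b) := by
  unfold task
  by_cases h : ∀ w, rho A B w ≠ 0
  · simp only [if_pos h]
    refine Continuous.div ?_ ?_ ?_
    · cases b
      · exact Complex.continuous_conj.comp hB
      · exact Complex.continuous_conj.comp hA
    · exact Complex.continuous_ofReal.comp (rho_cont hA hB)
    · intro w
      exact_mod_cast h w
  · simp only [if_neg h]
    exact continuous_const

theorem task_norm_le (A B : P → ℂ) (b : Bool) (v : P) : ‖task A B b v‖ ≤ 1 := by
  unfold task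
  split_ifs with h hb
  · rw [norm_div, Complex.norm_conj, Complex.norm_real, Real.norm_eq_abs,
      abs_of_nonneg (rho_nonneg A B v)]
    exact div_le_one_of_le₀ (norm_le_rho_left A B v) (rho_nonneg A B v)
  · rw [norm_div, Complex.norm_conj, Complex.norm_real, Real.norm_eq_abs,
      abs_of_nonneg (rho_nonneg A B v)]
    exact div_le_one_of_le₀ (norm_le_rho_right A B v) (rho_nonneg A B v)
  · simp

theorem task_mem {G : Set ℂ} {A B : P → ℂ} {b : Bool} {v : P} (hA : A v ∈ ClSub G)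
    (hA' : starRingEnd ℂ (A v) ∈ ClSub G) (hB : B v ∈ ClSub G)
    (hB' : starRingEnd ℂ (B v) ∈ ClSub G) :
    task A B b v ∈ ClSub G ∧ starRingEnd ℂ (task A B b v) ∈ ClSub G := by
  have hr : (rho A B v : ℂ) ∈ ClSub G := by
    apply of_sq_mem_ClSub
    have : (rho A B v : ℂ) ^ 2 = A v * starRingEnd ℂ (A v) + B v * starRingEnd ℂ (B v) := by
      rw [Complex.mul_conj, Complex.mul_conj]
      rw [← Complex.ofReal_pow, rho_sq]
      push_cast
      rfl
    rw [this]
    exact add_mem (mul_mem hA hA') (mul_mem hB hB')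
  unfold task
  split_ifs with h hb
  · refine ⟨div_mem_ClSub hA' hr, ?_⟩
    rw [map_div₀, Complex.conj_conj, Complex.conj_ofReal]
    exact div_mem_ClSub hA hr
  · refine ⟨div_mem_ClSub hB' hr, ?_⟩
    rw [map_div₀, Complex.conj_conj, Complex.conj_ofReal]
    exact div_mem_ClSub hB hr
  · rw [map_zero]
    exact ⟨zero_mem _, zero_mem _⟩

noncomputable def base (n : ℕ) (v : P) : ℂ :=
  if n = 0 then (1 + v.2.2 / J v) / 2
  else if n = 1 then (v.1 - v.2.1 * I) / (2 * J v)
  else (v.1 + v.2.1 * I) / (2 * J v)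

theorem J_ne (v : P) : (J v : ℂ) ≠ 0 := by exact_mod_cast (J_pos v).ne'

theorem base_cont (n : ℕ) : Continuous (base n) := by
  have hJ : Continuous (fun v : P => (J v : ℂ)) := Complex.continuous_ofReal.comp J_cont
  unfold base
  split_ifs
  · refine Continuous.div_const (continuous_const.add (Continuous.div ?_ hJ J_ne)) _
    fun_prop
  · refine Continuous.div ?_ (continuous_const.mul hJ) (fun v => mul_ne_zero two_ne_zero (J_ne v))
    fun_prop
  · refine Continuous.div ?_ (continuous_const.mul hJ) (fun v => mul_ne_zero two_ne_zero (J_ne v))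
    fun_prop

theorem base_norm_le (n : ℕ) (v : P) : ‖base n v‖ ≤ 1 := by
  have hJ := J_pos v
  have h0 : |v.2.2| ≤ J v := by
    apply Real.le_sqrt_of_sq_le
    rw [sq_abs]
    unfold N2
    nlinarith [sq_nonneg v.1, sq_nonneg v.2.1]
  have h1 : |v.1| ≤ J v := by
    apply Real.le_sqrt_of_sq_le
    rw [sq_abs]
    unfold N2
    nlinarith [sq_nonneg v.2.2, sq_nonneg v.2.1]
  have h2 : |v.2.1| ≤ J v := by
    apply Real.le_sqrt_of_sq_le
    rw [sq_abs]
    unfold N2
    nlinarith [sq_nonneg v.2.2, sq_nonneg v.1]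
  have h3 : ‖(v.1 : ℂ)‖ ≤ J v := by rwa [Complex.norm_real, Real.norm_eq_abs]
  have h4 : ‖(v.2.1 : ℂ) * I‖ ≤ J v := by
    rwa [norm_mul, Complex.norm_I, mul_one, Complex.norm_real, Real.norm_eq_abs]
  have h5 : ‖(2 * J v : ℂ)‖ = 2 * J v := by
    rw [norm_mul, Complex.norm_real, Real.norm_eq_abs, abs_of_pos hJ]
    simp
  unfold base
  split_ifs
  · rw [norm_div]
    have : ‖(1 + v.2.2 / J v : ℂ)‖ ≤ 2 := by
      calc ‖(1 + v.2.2 / J v : ℂ)‖ ≤ ‖(1 : ℂ)‖ + ‖(v.2.2 / J v : ℂ)‖ := norm_add_le _ _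
        _ ≤ 1 + 1 := by
          gcongr
          · simp
          · rw [norm_div, Complex.norm_real, Complex.norm_real, Real.norm_eq_abs, Real.norm_eq_abs,
              abs_of_pos hJ]
            exact div_le_one_of_le₀ h0 hJ.le
        _ = 2 := by norm_num
    have h6 : ‖(2 : ℂ)‖ = 2 := by simp
    rw [h6]
    linarith
  · rw [norm_div, h5]
    apply div_le_one_of_le₀ _ (by linarith)
    calc ‖(v.1 - v.2.1 * I : ℂ)‖ ≤ ‖(v.1 : ℂ)‖ + ‖(v.2.1 : ℂ) * I‖ := norm_sub_le _ _
      _ ≤ 2 * J v := by linarith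
  · rw [norm_div, h5]
    apply div_le_one_of_le₀ _ (by linarith)
    calc ‖(v.1 + v.2.1 * I : ℂ)‖ ≤ ‖(v.1 : ℂ)‖ + ‖(v.2.1 : ℂ) * I‖ := norm_add_le _ _
      _ ≤ 2 * J v := by linarith

theorem base_mem {G : Set ℂ} {v : P} (h1 : (v.1 : ℂ) ∈ ClSub G) (h2 : (v.2.1 : ℂ) ∈ ClSub G)
    (h3 : (v.2.2 : ℂ) ∈ ClSub G) (n : ℕ) :
    base n v ∈ ClSub G ∧ starRingEnd ℂ (base n v) ∈ ClSub G := by
  have hJ : (J v : ℂ) ∈ ClSub G := by
    apply of_sq_mem_ClSub
    rw [← Complex.ofReal_pow, J_sq]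
    unfold N2
    push_cast
    exact add_mem (add_mem (add_mem (one_mem _) (pow_mem h1 2)) (pow_mem h2 2)) (pow_mem h3 2)
  have h2' : (2 : ℂ) ∈ ClSub G := by exact_mod_cast natCast_mem_ClSub (G := G) 2
  have hI := I_mem_ClSub (G := G)
  have hc2 : starRingEnd ℂ 2 = 2 := map_ofNat _ 2
  unfold base
  split_ifs
  · refine ⟨div_mem_ClSub (add_mem (one_mem _) (div_mem_ClSub h3 hJ)) h2', ?_⟩
    have : starRingEnd ℂ ((1 + v.2.2 / J v) / 2) = (1 + v.2.2 / J v) / 2 := by
      simp [hc2]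
    rw [this]
    exact div_mem_ClSub (add_mem (one_mem _) (div_mem_ClSub h3 hJ)) h2'
  · refine ⟨div_mem_ClSub (sub_mem h1 (mul_mem h2 hI)) (mul_mem h2' hJ), ?_⟩
    have : starRingEnd ℂ ((v.1 - v.2.1 * I) / (2 * J v)) = (v.1 + v.2.1 * I) / (2 * J v) := by
      simp [sub_eq_add_neg, hc2]
    rw [this]
    exact div_mem_ClSub (add_mem h1 (mul_mem h2 hI)) (mul_mem h2' hJ)
  · refine ⟨div_mem_ClSub (add_mem h1 (mul_mem h2 hI)) (mul_mem h2' hJ), ?_⟩
    have : starRingEnd ℂ ((v.1 + v.2.1 * I) / (2 * J v)) = (v.1 - v.2.1 * I) / (2 * J v) := by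
      simp [sub_eq_add_neg, hc2]
    rw [this]
    exact div_mem_ClSub (sub_mem h1 (mul_mem h2 hI)) (mul_mem h2' hJ)

noncomputable def wt (n : ℕ) (v : P) : ℝ := if n < 3 then 1 / N2 v else 1

theorem wt_cont (n : ℕ) : Continuous (wt n) := by
  unfold wt
  split_ifs
  · exact continuous_const.div N2_cont (fun v => (N2_pos v).ne')
  · exact continuous_const

theorem wt_pos (n : ℕ) (v : P) : 0 < wt n v := by
  unfold wt
  split_ifs
  · exact one_div_pos.mpr (N2_pos v)
  · exact one_pos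

theorem wt_le (n : ℕ) (v : P) : wt n v ≤ 1 := by
  unfold wt
  split_ifs
  · exact (div_le_one (N2_pos v)).mpr (N2_ge v)
  · exact le_rfl

theorem wt_mem {G : Set ℂ} {v : P} (h1 : (v.1 : ℂ) ∈ ClSub G) (h2 : (v.2.1 : ℂ) ∈ ClSub G)
    (h3 : (v.2.2 : ℂ) ∈ ClSub G) (n : ℕ) : (wt n v : ℂ) ∈ ClSub G := by
  unfold wt
  split_ifs
  · unfold N2
    push_cast
    exact div_mem_ClSub (one_mem _)
      (add_mem (add_mem (add_mem (one_mem _) (pow_mem h1 2)) (pow_mem h2 2)) (pow_mem h3 2))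
  · push_cast
    exact one_mem _

theorem aeval_cont {β : P → ℕ → ℂ} (hβ : ∀ m, Continuous (fun w => β w m)) (p : R) :
    Continuous (fun w => MvPolynomial.aeval (β w) p) := by
  induction p using MvPolynomial.induction_on with
  | C r => simpa using continuous_const
  | add p q hp hq =>
    simp only [map_add]
    exact hp.add hq
  | mul_X p i hp =>
    simp only [map_mul, MvPolynomial.aeval_X]
    exact hp.mul (hβ i)

theorem conj_aeval (β : ℕ → ℂ) (p : R) :
    starRingEnd ℂ (MvPolynomial.aeval β p) =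
      MvPolynomial.aeval (fun m => starRingEnd ℂ (β m)) p := by
  induction p using MvPolynomial.induction_on with
  | C r => simp
  | add p q hp hq => simp only [map_add, hp, hq]
  | mul_X p i hp => simp only [map_mul, MvPolynomial.aeval_X, hp]

/-- the sequence of functions -/
noncomputable def alpha (u : ℕ → ℝ) (K : ℕ → ℕ) (e : ℕ → R × R × Bool) (n : ℕ) : P → ℂ := fun v =>
  (if n < 3 then base n v else
    task (fun w => MvPolynomial.aeval (fun m => if _h : m < n then alpha u K e m w else 0) (e n).1)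
      (fun w => MvPolynomial.aeval (fun m => if _h : m < n then alpha u K e m w else 0) (e n).2.1)
      (e n).2.2 v)
  + (u (2 * n) + u (2 * n + 1) * I) * ((wt n v / (K n : ℝ) : ℝ) : ℂ)
termination_by n

noncomputable def trunc (u : ℕ → ℝ) (K : ℕ → ℕ) (e : ℕ → R × R × Bool) (n : ℕ) (w : P) (m : ℕ) : ℂ :=
  if m < n then alpha u K e m w else 0

noncomputable def tau (u : ℕ → ℝ) (K : ℕ → ℕ) (e : ℕ → R × R × Bool) (n : ℕ) (v : P) : ℂ :=
  if n < 3 then base n v else
    task (fun w => MvPolynomial.aeval (trunc u K e n w) (e n).1)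
      (fun w => MvPolynomial.aeval (trunc u K e n w) (e n).2.1) (e n).2.2 v

variable {u : ℕ → ℝ} {K : ℕ → ℕ} {e : ℕ → R × R × Bool}

theorem alpha_eq (n : ℕ) (v : P) : alpha u K e n v =
    tau u K e n v + (u (2 * n) + u (2 * n + 1) * I) * ((wt n v / (K n : ℝ) : ℝ) : ℂ) := by
  rw [alpha]
  rfl

theorem alpha_cont (n : ℕ) : Continuous (alpha u K e n) := by
  induction n using Nat.strong_induction_on with
  | _ n ih =>
    have h1 : alpha u K e n = fun v => tau u K e n v +
        (u (2 * n) + u (2 * n + 1) * I) * ((wt n v / (K n : ℝ) : ℝ) : ℂ) := by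
      funext v; exact alpha_eq n v
    have htr : ∀ m, Continuous (fun w => trunc u K e n w m) := by
      intro m
      unfold trunc
      split_ifs with h
      · exact ih m h
      · exact continuous_const
    rw [h1]
    refine Continuous.add ?_ (continuous_const.mul
      (Complex.continuous_ofReal.comp ((wt_cont n).div_const _)))
    unfold tau
    split_ifs
    · exact base_cont n
    · exact task_cont (aeval_cont htr _) (aeval_cont htr _) _

theorem tau_norm_le (n : ℕ) (v : P) : ‖tau u K e n v‖ ≤ 1 := by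
  unfold tau
  split_ifs
  · exact base_norm_le n v
  · exact task_norm_le _ _ _ _

theorem alpha_sub_tau (hK : ∀ n, 0 < K n)
    (hKu : ∀ n, ‖(u (2 * n) + u (2 * n + 1) * I : ℂ)‖ ≤ K n / 4) (n : ℕ) (v : P) :
    ‖alpha u K e n v - tau u K e n v‖ ≤ 1 / 4 * wt n v := by
  rw [alpha_eq, add_sub_cancel_left, norm_mul, Complex.norm_real, Real.norm_eq_abs]
  have hK' : (0 : ℝ) < K n := by exact_mod_cast hK n
  have hw := wt_pos n v
  rw [abs_of_pos (by positivity)]
  calc ‖(u (2 * n) + u (2 * n + 1) * I : ℂ)‖ * (wt n v / K n) ≤ (K n / 4) * (wt n v / K n) := by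
        gcongr
        exact hKu n
    _ = 1 / 4 * wt n v := by field_simp

theorem alpha_norm_le (hK : ∀ n, 0 < K n)
    (hKu : ∀ n, ‖(u (2 * n) + u (2 * n + 1) * I : ℂ)‖ ≤ K n / 4) (n : ℕ) (v : P) :
    ‖alpha u K e n v‖ ≤ 2 := by
  have h1 := alpha_sub_tau (e := e) hK hKu n v
  have h2 := tau_norm_le (u := u) (K := K) (e := e) n v
  have h3 := wt_le n v
  have h4 : ‖alpha u K e n v‖ ≤ ‖alpha u K e n v - tau u K e n v‖ + ‖tau u K e n v‖ := by
    have := norm_add_le (alpha u K e n v - tau u K e n v) (tau u K e n v)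
    rwa [sub_add_cancel] at this
  linarith

theorem u_mem (hK : ∀ n, 0 < K n) {G : Set ℂ} {v : P} (h1 : (v.1 : ℂ) ∈ ClSub G)
    (h2 : (v.2.1 : ℂ) ∈ ClSub G) (h3 : (v.2.2 : ℂ) ∈ ClSub G) (m : ℕ)
    (ha : ∀ j < m, alpha u K e j v ∈ ClSub G ∧ starRingEnd ℂ (alpha u K e j v) ∈ ClSub G) :
    ∀ j < m, (u (2 * j) : ℂ) ∈ ClSub G ∧ (u (2 * j + 1) : ℂ) ∈ ClSub G := by
  intro j hj
  have htr : ∀ i, trunc u K e j v i ∈ ClSub G ∧ starRingEnd ℂ (trunc u K e j v i) ∈ ClSub G := by
    intro i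
    unfold trunc
    split_ifs with h
    · exact ha i (h.trans hj)
    · rw [map_zero]; exact ⟨zero_mem _, zero_mem _⟩
  have hae : ∀ p : R, MvPolynomial.aeval (trunc u K e j v) p ∈ ClSub G ∧
      starRingEnd ℂ (MvPolynomial.aeval (trunc u K e j v) p) ∈ ClSub G := by
    intro p
    refine ⟨aeval_mem_ClSub (fun i => (htr i).1) p, ?_⟩
    rw [conj_aeval]
    exact aeval_mem_ClSub (fun i => (htr i).2) p
  have htau : tau u K e j v ∈ ClSub G ∧ starRingEnd ℂ (tau u K e j v) ∈ ClSub G := by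
    unfold tau
    split_ifs
    · exact base_mem h1 h2 h3 j
    · exact task_mem (hae _).1 (hae _).2 (hae _).1 (hae _).2
  set c : ℂ := ((wt j v / (K j : ℝ) : ℝ) : ℂ) with hc
  have hcm : c ∈ ClSub G := by
    rw [hc]
    push_cast
    exact div_mem_ClSub (wt_mem h1 h2 h3 j) (natCast_mem_ClSub _)
  have hc0 : c ≠ 0 := by
    have hK' : (0 : ℝ) < K j := by exact_mod_cast hK j
    have hw := wt_pos j v
    have : (wt j v / (K j : ℝ)) ≠ 0 := by positivity
    rw [hc]
    exact_mod_cast this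
  have hs : (u (2 * j) + u (2 * j + 1) * I : ℂ) ∈ ClSub G := by
    have : (u (2 * j) + u (2 * j + 1) * I : ℂ) = (alpha u K e j v - tau u K e j v) / c := by
      rw [alpha_eq, add_sub_cancel_left, mul_div_assoc, div_self hc0, mul_one]
    rw [this]
    exact div_mem_ClSub (sub_mem (ha j hj).1 htau.1) hcm
  have hs' : (u (2 * j) - u (2 * j + 1) * I : ℂ) ∈ ClSub G := by
    have : (u (2 * j) - u (2 * j + 1) * I : ℂ) =
        (starRingEnd ℂ (alpha u K e j v) - starRingEnd ℂ (tau u K e j v)) / c := by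
      rw [← map_sub, alpha_eq, add_sub_cancel_left, map_mul, hc, Complex.conj_ofReal, ← hc,
        mul_div_assoc, div_self hc0, mul_one]
      simp [sub_eq_add_neg]
    rw [this]
    exact div_mem_ClSub (sub_mem (ha j hj).2 htau.2) hcm
  have h2' : (2 : ℂ) ∈ ClSub G := by exact_mod_cast natCast_mem_ClSub (G := G) 2
  constructor
  · have : (u (2 * j) : ℂ) = ((u (2 * j) + u (2 * j + 1) * I) + (u (2 * j) - u (2 * j + 1) * I)) / 2 := by
      ring
    rw [this]
    exact div_mem_ClSub (add_mem hs hs') h2'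
  · have : (u (2 * j + 1) : ℂ) =
        ((u (2 * j) + u (2 * j + 1) * I) - (u (2 * j) - u (2 * j + 1) * I)) / (2 * I) := by
      have := Complex.I_ne_zero
      field_simp
      ring
    rw [this]
    exact div_mem_ClSub (sub_mem hs hs') (mul_mem h2' I_mem_ClSub)

theorem gen_pos (hu : AlgebraicIndependent ℚ (fun i => (u i : ℂ))) (hK : ∀ n, 0 < K n) (v : P) :
    ∃ k, AlgebraicIndependent ℚ (fun j : {j : ℕ // j ≠ k} => alpha u K e j v) := by
  apply exists_removed (fun j => alpha u K e j v)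
  intro m
  apply rank_bound (fun i => (u i : ℂ)) hu ({(v.1 : ℂ), (v.2.1 : ℂ), (v.2.2 : ℂ)} : Set ℂ)
  · refine (Set.encard_insert_le _ _).trans ?_
    have := Set.encard_insert_le ({(v.2.2 : ℂ)} : Set ℂ) (v.2.1 : ℂ)
    rw [Set.encard_singleton] at this
    calc ({(v.2.1 : ℂ), (v.2.2 : ℂ)} : Set ℂ).encard + 1 ≤ (1 + 1) + 1 := by gcongr
      _ = 3 := by norm_num
  · intro i hi
    rw [mem_closure_iff]
    set G : Set ℂ := {(v.1 : ℂ), (v.2.1 : ℂ), (v.2.2 : ℂ)} ∪
      ((fun j => alpha u K e j v) '' Set.Iio m ∪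
        (starRingEnd ℂ) '' ((fun j => alpha u K e j v) '' Set.Iio m)) with hG
    have h1 : (v.1 : ℂ) ∈ ClSub G := subset_ClSub (by left; simp)
    have h2 : (v.2.1 : ℂ) ∈ ClSub G := subset_ClSub (by left; simp)
    have h3 : (v.2.2 : ℂ) ∈ ClSub G := subset_ClSub (by left; simp)
    have ha : ∀ j < m, alpha u K e j v ∈ ClSub G ∧ starRingEnd ℂ (alpha u K e j v) ∈ ClSub G := by
      intro j hj
      have h4 : alpha u K e j v ∈ (fun j => alpha u K e j v) '' Set.Iio m :=
        ⟨j, Set.mem_Iio.mpr hj, rfl⟩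
      exact ⟨subset_ClSub (Or.inr (Or.inl h4)),
        subset_ClSub (Or.inr (Or.inr ⟨_, h4, rfl⟩))⟩
    have h5 := u_mem hK h1 h2 h3 m ha (i / 2) (by omega)
    rcases Nat.even_or_odd' i with ⟨c, hc | hc⟩
    · have : i / 2 = c := by omega
      rw [this] at h5
      rw [hc]
      exact h5.1
    · have : i / 2 = c := by omega
      rw [this] at h5
      rw [hc]
      exact h5.2

end Pool.Agent.BezHen
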