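import Mathlib
import Pool.Agent.BezHen.Constr

set_option autoImplicit false

namespace Pool.Agent.BezHen

open Complex

instance countable_R : Countable R := by
  have h := MvPolynomial.cardinalMk_le_max (σ := ℕ) (R := ℚ)
  rw [← Cardinal.mk_le_aleph0_iff]
  refine h.trans ?_
  simp

/-- a sequence hitting every element infinitely often -/
theorem exists_enum (Y : Type) [Countable Y] [Nonempty Y] :
    ∃ e : ℕ → Y, ∀ y N, ∃ n, N ≤ n ∧ e n = y := by
  obtain ⟨g, hg⟩ := exists_surjective_nat Y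
  refine ⟨fun n => g (Nat.unpair n).1, fun y N => ?_⟩
  obtain ⟨i, hi⟩ := hg y
  exact ⟨Nat.pair i N, Nat.right_le_pair i N, by simp [hi]⟩

/-- evaluation at `v`. -/
noncomputable def ev (α : ℕ → P → ℂ) (p : R) (v : P) : ℂ := MvPolynomial.aeval (fun m => α m v) p

theorem exists_seq : ∃ α : ℕ → P → ℂ,
    (∀ n, Continuous (α n)) ∧ (∀ n v, ‖α n v‖ ≤ 2) ∧
    (∀ n < 3, ∀ v, ‖α n v - base n v‖ ≤ 1 / 4 * (1 / N2 v)) ∧
    (∀ p q : R, IsRelPrime p q → ∀ v, ¬ (ev α p v = 0 ∧ ev α q v = 0)) ∧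
    (∀ p q : R, IsRelPrime p q → ∃ i j, ∀ v,
      ‖α i v - starRingEnd ℂ (ev α p v) / (rho (ev α p) (ev α q) v : ℂ)‖ ≤ 1 / 4 ∧
      ‖α j v - starRingEnd ℂ (ev α q v) / (rho (ev α p) (ev α q) v : ℂ)‖ ≤ 1 / 4) := by
  obtain ⟨u, hu⟩ := exists_param
  obtain ⟨e, he⟩ := exists_enum (R × R × Bool)
  obtain ⟨K, hK, hKu⟩ : ∃ K : ℕ → ℕ, (∀ n, 0 < K n) ∧
      ∀ n, ‖(u (2 * n) + u (2 * n + 1) * I : ℂ)‖ ≤ K n / 4 := by
    have : ∀ n : ℕ, ∃ k : ℕ, 0 < k ∧ ‖(u (2 * n) + u (2 * n + 1) * I : ℂ)‖ ≤ k / 4 := by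
      intro n
      obtain ⟨k, hk⟩ := exists_nat_ge (4 * ‖(u (2 * n) + u (2 * n + 1) * I : ℂ)‖)
      refine ⟨k + 1, by omega, ?_⟩
      push_cast
      linarith
    choose K hK using this
    exact ⟨K, fun n => (hK n).1, fun n => (hK n).2⟩
  have hgp : ∀ p q : R, IsRelPrime p q → ∀ v,
      ¬ (ev (alpha u K e) p v = 0 ∧ ev (alpha u K e) q v = 0) := by
    intro p q hpq v ⟨h1, h2⟩
    obtain ⟨k, hk⟩ := gen_pos (e := e) hu hK v
    exact relprime_no_common_zero (fun m => alpha u K e m v) k hk p q hpq h1 h2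
  refine ⟨alpha u K e, alpha_cont, alpha_norm_le hK hKu, ?_, hgp, ?_⟩
  · intro n hn v
    have h1 := alpha_sub_tau (e := e) hK hKu n v
    have h2 : tau u K e n v = base n v := by unfold tau; rw [if_pos hn]
    have h3 : wt n v = 1 / N2 v := by unfold wt; rw [if_pos hn]
    rwa [h2, h3] at h1
  · intro p q hpq
    have hrho : ∀ w, rho (ev (alpha u K e) p) (ev (alpha u K e) q) w ≠ 0 := by
      intro w h
      have h1 := norm_le_rho_left (ev (alpha u K e) p) (ev (alpha u K e) q) w
      have h2 := norm_le_rho_right (ev (alpha u K e) p) (ev (alpha u K e) q) w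
      rw [h] at h1 h2
      exact hgp p q hpq w ⟨norm_le_zero_iff.mp h1, norm_le_zero_iff.mp h2⟩
    -- a bound on the variables
    obtain ⟨N, hN⟩ : ∃ N : ℕ, ∀ i, i ∈ p.vars ∪ q.vars → i < N := by
      refine ⟨(p.vars ∪ q.vars).sup id + 1, fun i hi => ?_⟩
      have := Finset.le_sup (f := id) hi
      simp only [id] at this
      omega
    have htr : ∀ r : R, r.vars ⊆ p.vars ∪ q.vars → ∀ n, N ≤ n → ∀ w,
        MvPolynomial.aeval (trunc u K e n w) r = ev (alpha u K e) r w := by
      intro r hr n hn w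
      unfold ev
      apply MvPolynomial.eval₂Hom_congr' rfl _ rfl
      intro i hi _
      unfold trunc
      rw [if_pos]
      exact (hN i (hr hi)).trans_le hn
    have hb : ∀ b : Bool, ∃ n, ∀ v, ‖alpha u K e n v -
        starRingEnd ℂ (if b then ev (alpha u K e) p v else ev (alpha u K e) q v) /
          (rho (ev (alpha u K e) p) (ev (alpha u K e) q) v : ℂ)‖ ≤ 1 / 4 := by
      intro b
      obtain ⟨n, hn, hen⟩ := he (p, q, b) (max N 3)
      refine ⟨n, fun v => ?_⟩
      have h1 := alpha_sub_tau (e := e) hK hKu n v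
      have h3 := wt_le n v
      have h2 : tau u K e n v =
        starRingEnd ℂ (if b then ev (alpha u K e) p v else ev (alpha u K e) q v) /
          (rho (ev (alpha u K e) p) (ev (alpha u K e) q) v : ℂ) := by
        unfold tau
        rw [if_neg (by omega), hen]
        have hp' : (fun w => MvPolynomial.aeval (trunc u K e n w) p) = ev (alpha u K e) p := by
          funext w
          exact htr p Finset.subset_union_left n (by omega) w
        have hq' : (fun w => MvPolynomial.aeval (trunc u K e n w) q) = ev (alpha u K e) q := by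
          funext w
          exact htr q Finset.subset_union_right n (by omega) w
        simp only [hp', hq']
        unfold task
        rw [if_pos hrho]
      rw [h2] at h1
      linarith
    obtain ⟨i, hi⟩ := hb true
    obtain ⟨j, hj⟩ := hb false
    refine ⟨i, j, fun v => ⟨?_, ?_⟩⟩
    · simpa using hi v
    · simpa using hj v

end Pool.Agent.BezHen
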