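import Mathlib
import Pool.Agent.BezHen.Seq

set_option autoImplicit false

namespace Pool.Agent.BezHen

open Complex

theorem ev_add (α : ℕ → P → ℂ) (p q : R) (v : P) : ev α (p + q) v = ev α p v + ev α q v := by
  unfold ev; exact map_add _ _ _
theorem ev_mul (α : ℕ → P → ℂ) (p q : R) (v : P) : ev α (p * q) v = ev α p v * ev α q v := by
  unfold ev; exact map_mul _ _ _
theorem ev_neg (α : ℕ → P → ℂ) (p : R) (v : P) : ev α (-p) v = - ev α p v := by
  unfold ev; exact map_neg _ _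
theorem ev_one (α : ℕ → P → ℂ) (v : P) : ev α 1 v = 1 := by
  unfold ev; exact map_one _
theorem ev_zero (α : ℕ → P → ℂ) (v : P) : ev α 0 v = 0 := by
  unfold ev; exact map_zero _
theorem ev_X (α : ℕ → P → ℂ) (i : ℕ) (v : P) : ev α (MvPolynomial.X i) v = α i v := by
  unfold ev; exact MvPolynomial.aeval_X _ _

abbrev KK := FractionRing R

/-- the Bezout domain -/
noncomputable def BR (α : ℕ → P → ℂ) : Subring (KK × BoundedContinuousFunction P ℂ) where
  carrier := {x | ∃ p q : R, (∀ v, ev α q v ≠ 0) ∧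
    x.1 * algebraMap R KK q = algebraMap R KK p ∧ ∀ v, x.2 v * ev α q v = ev α p v}
  mul_mem' := by
    rintro x y ⟨p, q, h1, h2, h3⟩ ⟨p', q', h1', h2', h3'⟩
    refine ⟨p * p', q * q', fun v => ?_, ?_, fun v => ?_⟩
    · rw [ev_mul]; exact mul_ne_zero (h1 v) (h1' v)
    · rw [Prod.fst_mul, map_mul, map_mul, ← h2, ← h2']; ring
    · rw [Prod.snd_mul, BoundedContinuousFunction.mul_apply, ev_mul, ev_mul, ← h3 v, ← h3' v]; ring
  one_mem' := ⟨1, 1, fun v => by rw [ev_one]; exact one_ne_zero, by simp, fun v => by simp [ev_one]⟩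
  add_mem' := by
    rintro x y ⟨p, q, h1, h2, h3⟩ ⟨p', q', h1', h2', h3'⟩
    refine ⟨p * q' + p' * q, q * q', fun v => ?_, ?_, fun v => ?_⟩
    · rw [ev_mul]; exact mul_ne_zero (h1 v) (h1' v)
    · rw [Prod.fst_add, map_mul, map_add, map_mul, map_mul, ← h2, ← h2']; ring
    · rw [Prod.snd_add, BoundedContinuousFunction.add_apply, ev_mul, ev_add, ev_mul, ev_mul,
        ← h3 v, ← h3' v]; ring
  zero_mem' := ⟨0, 1, fun v => by rw [ev_one]; exact one_ne_zero, by simp, fun v => by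
    simp [ev_zero]⟩
  neg_mem' := by
    rintro x ⟨p, q, h1, h2, h3⟩
    refine ⟨-p, q, h1, ?_, fun v => ?_⟩
    · rw [Prod.fst_neg, map_neg, ← h2]; ring
    · rw [Prod.snd_neg, BoundedContinuousFunction.neg_apply, ev_neg, ← h3 v]; ring

theorem mem_BR {α : ℕ → P → ℂ} {x : KK × BoundedContinuousFunction P ℂ} : x ∈ BR α ↔
    ∃ p q : R, (∀ v, ev α q v ≠ 0) ∧
      x.1 * algebraMap R KK q = algebraMap R KK p ∧ ∀ v, x.2 v * ev α q v = ev α p v := Iff.rfl

/-- the projection to the field of fractions -/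
noncomputable def prK (α : ℕ → P → ℂ) : BR α →+* KK :=
  (RingHom.fst KK (BoundedContinuousFunction P ℂ)).comp (BR α).subtype

theorem prK_inj (α : ℕ → P → ℂ) : Function.Injective (prK α) := by
  rintro ⟨x, p, q, h1, h2, h3⟩ ⟨y, p', q', h1', h2', h3'⟩ hxy
  have h : x.1 = y.1 := hxy
  apply Subtype.ext
  refine Prod.ext h ?_
  have h4 : p * q' = p' * q := by
    apply IsFractionRing.injective R KK
    rw [map_mul, map_mul, ← h2, ← h2', h]
    ring
  ext v
  have h5 := congrArg (fun r => ev α r v) h4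
  simp only [ev_mul] at h5
  rw [← h3 v, ← h3' v] at h5
  have h6 : x.2 v * (ev α q v * ev α q' v) = y.2 v * (ev α q v * ev α q' v) := by
    linear_combination h5
  exact mul_right_cancel₀ (mul_ne_zero (h1 v) (h1' v)) h6

instance (α : ℕ → P → ℂ) : IsDomain (BR α) := (prK_inj α).isDomain (prK α)

theorem ev_cont {α : ℕ → P → ℂ} (hα : ∀ n, Continuous (α n)) (p : R) : Continuous (ev α p) := by
  unfold ev
  exact aeval_cont hα p

/-- construct an element of `BR` -/
theorem exists_elt {α : ℕ → P → ℂ} (hα : ∀ n, Continuous (α n)) (p q : R)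
    (hq : ∀ v, ev α q v ≠ 0) (C : ℝ) (hC : ∀ v, ‖ev α p v‖ ≤ C * ‖ev α q v‖) :
    ∃ x : BR α, prK α x * algebraMap R KK q = algebraMap R KK p ∧
      ∀ v, x.1.2 v = ev α p v / ev α q v := by
  have hq0 : algebraMap R KK q ≠ 0 := by
    intro h
    have h2 : q = 0 := (IsFractionRing.injective R KK) (h.trans (map_zero _).symm)
    apply hq (0, 0, 0)
    rw [h2, ev_zero]
  let f : BoundedContinuousFunction P ℂ :=
    BoundedContinuousFunction.ofNormedAddCommGroup (fun v => ev α p v / ev α q v)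
      ((ev_cont hα p).div (ev_cont hα q) hq) C (by
        intro v
        rw [norm_div, div_le_iff₀ (norm_pos_iff.mpr (hq v))]
        exact hC v)
  have hf : ∀ v, f v = ev α p v / ev α q v := fun v => rfl
  refine ⟨⟨(algebraMap R KK p / algebraMap R KK q, f), mem_BR.mpr ⟨p, q, hq, ?_, ?_⟩⟩, ?_, ?_⟩
  · exact div_mul_cancel₀ _ hq0
  · intro v
    change f v * _ = _
    rw [hf]
    exact div_mul_cancel₀ _ (hq v)
  · change (algebraMap R KK p / algebraMap R KK q) * _ = _
    exact div_mul_cancel₀ _ hq0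
  · exact hf

theorem key_bound {A B a b : ℂ} {r : ℝ} (hr : 0 < r) (hr2 : r ^ 2 = Complex.normSq A + Complex.normSq B)
    (hA : ‖A‖ ≤ r) (hB : ‖B‖ ≤ r)
    (ha : ‖a - starRingEnd ℂ A / r‖ ≤ 1 / 4) (hb : ‖b - starRingEnd ℂ B / r‖ ≤ 1 / 4) :
    r / 2 ≤ ‖a * A + b * B‖ := by
  have h1 : a * A + b * B = r + ((a - starRingEnd ℂ A / r) * A + (b - starRingEnd ℂ B / r) * B) := by
    have hr' : (r : ℂ) ≠ 0 := by exact_mod_cast hr.ne'
    have h2 : (r : ℂ) ^ 2 = A * starRingEnd ℂ A + B * starRingEnd ℂ B := by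
      rw [Complex.mul_conj, Complex.mul_conj, ← Complex.ofReal_pow, hr2]
      push_cast; rfl
    have h3 : (r : ℂ) = (starRingEnd ℂ A / r) * A + (starRingEnd ℂ B / r) * B := by
      field_simp
      linear_combination h2
    linear_combination (-1 : ℂ) * h3
  have h2 : ‖(a - starRingEnd ℂ A / r) * A + (b - starRingEnd ℂ B / r) * B‖ ≤ r / 2 := by
    calc _ ≤ ‖(a - starRingEnd ℂ A / r) * A‖ + ‖(b - starRingEnd ℂ B / r) * B‖ := norm_add_le _ _
      _ = ‖a - starRingEnd ℂ A / r‖ * ‖A‖ + ‖b - starRingEnd ℂ B / r‖ * ‖B‖ := by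
        rw [norm_mul, norm_mul]
      _ ≤ 1 / 4 * r + 1 / 4 * r := by gcongr
      _ = r / 2 := by ring
  rw [h1]
  have h3 : ‖(r : ℂ)‖ = r := by rw [Complex.norm_real, Real.norm_eq_abs, abs_of_pos hr]
  have h4 := norm_sub_le (r + ((a - starRingEnd ℂ A / r) * A + (b - starRingEnd ℂ B / r) * B))
    ((a - starRingEnd ℂ A / r) * A + (b - starRingEnd ℂ B / r) * B)
  rw [add_sub_cancel_right, h3] at h4
  linarith

theorem isBezout_BR {α : ℕ → P → ℂ} (hα : ∀ n, Continuous (α n)) (hbd : ∀ n v, ‖α n v‖ ≤ 2)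
    (hgp : ∀ p q : R, IsRelPrime p q → ∀ v, ¬ (ev α p v = 0 ∧ ev α q v = 0))
    (happ : ∀ p q : R, IsRelPrime p q → ∃ i j, ∀ v,
      ‖α i v - starRingEnd ℂ (ev α p v) / (rho (ev α p) (ev α q) v : ℂ)‖ ≤ 1 / 4 ∧
      ‖α j v - starRingEnd ℂ (ev α q v) / (rho (ev α p) (ev α q) v : ℂ)‖ ≤ 1 / 4) :
    IsBezout (BR α) := by
  rw [IsBezout.iff_span_pair_isPrincipal]
  intro x y
  by_cases hx0 : x = 0
  · subst hx0
    refine ⟨⟨y, ?_⟩⟩
    rw [Ideal.span_pair_comm, Ideal.span_pair_zero]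
  obtain ⟨p1, q1, hq1, hx1, hx2⟩ := mem_BR.mp x.2
  obtain ⟨p2, q2, hq2, hy1, hy2⟩ := mem_BR.mp y.2
  have hne : ∀ q : R, (∀ v, ev α q v ≠ 0) → q ≠ 0 := by
    intro q hq h
    apply hq (0, 0, 0)
    rw [h, ev_zero]
  have hneK : ∀ q : R, q ≠ 0 → algebraMap R KK q ≠ 0 := by
    intro q hq h
    exact hq ((IsFractionRing.injective R KK) (h.trans (map_zero _).symm))
  have hp1 : p1 ≠ 0 := by
    intro h
    apply hx0
    apply prK_inj α
    rw [map_zero]
    change x.1.1 = 0
    rw [h, map_zero] at hx1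
    exact (mul_eq_zero.mp hx1).resolve_right (hneK q1 (hne q1 hq1))
  obtain ⟨a', b', c', hrel, hA, hB⟩ := UniqueFactorizationMonoid.exists_reduced_factors
    (p1 * q2) (mul_ne_zero hp1 (hne q2 hq2)) (p2 * q1)
  obtain ⟨i, j, hij⟩ := happ a' b' hrel
  set c0 : R := MvPolynomial.X i * a' + MvPolynomial.X j * b' with hc0
  have hrho : ∀ v, 0 < rho (ev α a') (ev α b') v := by
    intro v
    refine lt_of_le_of_ne (rho_nonneg _ _ _) (fun h => ?_)
    have h1 := norm_le_rho_left (ev α a') (ev α b') v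
    have h2 := norm_le_rho_right (ev α a') (ev α b') v
    rw [← h] at h1 h2
    exact hgp a' b' hrel v ⟨norm_le_zero_iff.mp h1, norm_le_zero_iff.mp h2⟩
  have hc0ev : ∀ v, rho (ev α a') (ev α b') v / 2 ≤ ‖ev α c0 v‖ := by
    intro v
    rw [hc0, ev_add, ev_mul, ev_mul, ev_X, ev_X]
    exact key_bound (hrho v) (rho_sq _ _ _) (norm_le_rho_left _ _ _) (norm_le_rho_right _ _ _)
      (hij v).1 (hij v).2
  have hc0ne : ∀ v, ev α c0 v ≠ 0 := by
    intro v h
    have h1 := hc0ev v
    rw [h, norm_zero] at h1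
    linarith [hrho v]
  obtain ⟨fa, hfa, -⟩ := exists_elt hα a' c0 hc0ne 2 (by
    intro v
    linarith [hc0ev v, norm_le_rho_left (ev α a') (ev α b') v])
  obtain ⟨fb, hfb, -⟩ := exists_elt hα b' c0 hc0ne 2 (by
    intro v
    linarith [hc0ev v, norm_le_rho_right (ev α a') (ev α b') v])
  have hXi : ∀ i : ℕ, ∃ xi : BR α, prK α xi = algebraMap R KK (MvPolynomial.X i) := by
    intro i
    obtain ⟨xi, h1, -⟩ := exists_elt hα (MvPolynomial.X i) 1 (by
      intro v; rw [ev_one]; exact one_ne_zero) 2 (by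
      intro v
      rw [ev_X, ev_one]
      simpa using hbd i v)
    refine ⟨xi, ?_⟩
    simpa using h1
  obtain ⟨xi, hxi⟩ := hXi i
  obtain ⟨xj, hxj⟩ := hXi j
  have hx1' : prK α x * algebraMap R KK q1 = algebraMap R KK p1 := hx1
  have hy1' : prK α y * algebraMap R KK q2 = algebraMap R KK p2 := hy1
  have hK1 := hneK q1 (hne q1 hq1)
  have hK2 := hneK q2 (hne q2 hq2)
  have hKc := hneK c0 (hne c0 hc0ne)
  have hA' : algebraMap R KK c' * algebraMap R KK a' = algebraMap R KK p1 * algebraMap R KK q2 := by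
    rw [← map_mul, ← map_mul, hA]
  have hB' : algebraMap R KK c' * algebraMap R KK b' = algebraMap R KK p2 * algebraMap R KK q1 := by
    rw [← map_mul, ← map_mul, hB]
  have hc0' : algebraMap R KK c0 = algebraMap R KK (MvPolynomial.X i) * algebraMap R KK a' +
      algebraMap R KK (MvPolynomial.X j) * algebraMap R KK b' := by
    rw [hc0, map_add, map_mul, map_mul]
  -- the first coordinate of the generator
  have hgen : prK α (xi * x + xj * y) * (algebraMap R KK q1 * algebraMap R KK q2) =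
      algebraMap R KK c' * algebraMap R KK c0 := by
    rw [map_add, map_mul, map_mul, hxi, hxj, hc0']
    linear_combination (algebraMap R KK (MvPolynomial.X i)) * (algebraMap R KK q2) * hx1' +
      (algebraMap R KK (MvPolynomial.X j)) * (algebraMap R KK q1) * hy1' -
      (algebraMap R KK (MvPolynomial.X i)) * hA' - (algebraMap R KK (MvPolynomial.X j)) * hB'
  have hxe : x = fa * (xi * x + xj * y) := by
    apply prK_inj α
    rw [map_mul]
    have hne3 : algebraMap R KK q1 * algebraMap R KK q2 * algebraMap R KK c0 ≠ 0 :=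
      mul_ne_zero (mul_ne_zero hK1 hK2) hKc
    apply mul_right_cancel₀ hne3
    linear_combination (algebraMap R KK q2) * (algebraMap R KK c0) * hx1' -
      (prK α fa) * (algebraMap R KK c0) * hgen
      - (algebraMap R KK c') * (algebraMap R KK c0) * hfa - (algebraMap R KK c0) * hA'
  have hye : y = fb * (xi * x + xj * y) := by
    apply prK_inj α
    rw [map_mul]
    have hne3 : algebraMap R KK q1 * algebraMap R KK q2 * algebraMap R KK c0 ≠ 0 :=
      mul_ne_zero (mul_ne_zero hK1 hK2) hKc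
    apply mul_right_cancel₀ hne3
    linear_combination (algebraMap R KK q1) * (algebraMap R KK c0) * hy1' -
      (prK α fb) * (algebraMap R KK c0) * hgen
      - (algebraMap R KK c') * (algebraMap R KK c0) * hfb - (algebraMap R KK c0) * hB'
  refine ⟨⟨xi * x + xj * y, ?_⟩⟩
  change Ideal.span {x, y} = Ideal.span {xi * x + xj * y}
  apply le_antisymm
  · rw [Ideal.span_le]
    rintro z hz
    simp only [Set.mem_insert_iff, Set.mem_singleton_iff] at hz
    rcases hz with rfl | rfl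
    · exact Ideal.mem_span_singleton.mpr ⟨fa, hxe.trans (mul_comm _ _)⟩
    · exact Ideal.mem_span_singleton.mpr ⟨fb, hye.trans (mul_comm _ _)⟩
  · rw [Ideal.span_le]
    rintro z hz
    simp only [Set.mem_singleton_iff] at hz
    rw [hz]
    exact Ideal.add_mem _ (Ideal.mul_mem_left _ _ (Ideal.subset_span (by simp)))
      (Ideal.mul_mem_left _ _ (Ideal.subset_span (by simp)))

end Pool.Agent.BezHen
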