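import Mathlib

set_option autoImplicit false

namespace Pool.Agent.BezHen

open Complex

/-- Continuous logarithm on the plane `ℝ × ℝ`. -/
theorem exists_log (g : ℝ × ℝ → ℂ) (hg : Continuous g) (h0 : ∀ p, g p ≠ 0) :
    ∃ f : ℝ × ℝ → ℂ, Continuous f ∧ ∀ p, Complex.exp (f p) = g p := by
  have hs : IsSimplyConnected (Set.univ : Set (ℝ × ℝ)) := by
    have : SimplyConnectedSpace (Set.univ : Set (ℝ × ℝ)) := by
      have : ContractibleSpace (Set.univ : Set (ℝ × ℝ)) :=
        (Homeomorph.Set.univ (ℝ × ℝ)).contractibleSpace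
      infer_instance
    exact this
  obtain ⟨f, hf, hfe⟩ := Complex.exists_continuousOn_eqOn_exp_comp hs isOpen_univ
    (g := g) hg.continuousOn (by
      rintro ⟨p, -, hp⟩
      exact h0 p hp)
  exact ⟨f, continuousOn_univ.mp hf, fun p => hfe (Set.mem_univ p)⟩

/-- There is no homotopy of loops in `ℂ \ {0}` from a constant loop to `c₁ * exp (-iθ)`. -/
theorem no_homotopy (g : ℝ × ℝ → ℂ) (hg : Continuous g) (h0 : ∀ p, g p ≠ 0)
    (hper : ∀ t θ : ℝ, g (t, θ + 2 * Real.pi) = g (t, θ))
    (c0 c1 : ℂ) (hc0 : ∀ θ : ℝ, g (0, θ) = c0)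
    (hc1 : ∀ θ : ℝ, g (1, θ) = c1 * Complex.exp (-(θ * Complex.I))) : False := by
  obtain ⟨f, hf, hfe⟩ := exists_log g hg h0
  -- a continuous function with values in `2πiℤ` on a connected space is constant
  have key : ∀ F : ℝ × ℝ → ℂ, Continuous F → (∀ p, Complex.exp (F p) = 1) → ∀ p q, F p = F q := by
    intro F hF hFe p q
    have h1 : ∀ p, ∃ n : ℤ, F p = n * (2 * Real.pi * Complex.I) := fun p =>
      Complex.exp_eq_one_iff.mp (hFe p)
    choose n hn using h1
    have hcont : Continuous (fun p => ((n p : ℤ) : ℝ)) := by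
      have : (fun p => ((n p : ℤ) : ℝ)) = fun p => ((F p) / (2 * Real.pi * Complex.I)).re := by
        funext p
        have h2 : (2 * Real.pi * Complex.I : ℂ) ≠ 0 := Complex.two_pi_I_ne_zero
        rw [hn p, mul_div_assoc, div_self h2, mul_one]
        simp
      rw [this]
      exact Complex.continuous_re.comp (hF.div_const _)
    have hcontZ : Continuous n := by
      rw [continuous_def]
      intro s _
      have hemb := Int.isClosedEmbedding_coe_real.isInducing
      have : Continuous n := hemb.continuous_iff.mpr hcont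
      exact (this.isOpen_preimage s (isOpen_discrete s))
    have := PreconnectedSpace.constant (α := ℝ × ℝ) inferInstance hcontZ (x := p) (y := q)
    rw [hn p, hn q, this]
  have hA := key (fun p => f (p.1, p.2 + 2 * Real.pi) - f (p.1, p.2)) (by fun_prop) (by
    intro p
    rw [Complex.exp_sub, hfe, hfe, hper]
    exact div_self (h0 _))
  -- on the line t = 0
  have hB := key (fun p => f (0, p.2) - f (0, 0)) (by fun_prop) (by
    intro p
    rw [Complex.exp_sub, hfe, hfe, hc0, hc0]
    exact div_self (by rw [← hc0 0]; exact h0 _))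
  have hC := key (fun p => f (1, p.2) + p.2 * Complex.I - f (1, 0)) (by fun_prop) (by
    intro p
    have hc1' : c1 ≠ 0 := by
      intro h
      have := hc1 0
      rw [h, zero_mul] at this
      exact h0 _ this
    rw [Complex.exp_sub, Complex.exp_add, hfe, hfe, hc1, hc1]
    rw [mul_assoc, ← Complex.exp_add]
    simp
    exact hc1')
  have a1 := hA (0, 0) (1, 0)
  have b1 := hB (0, 2 * Real.pi) (0, 0)
  have c1' := hC (0, 2 * Real.pi) (0, 0)
  simp only [zero_add, sub_self, Complex.ofReal_zero, zero_mul, add_zero] at a1 b1 c1'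
  rw [b1] at a1
  have h2 : f (1, 2 * Real.pi) - f (1, 0) = 0 := a1.symm
  have h3 : ((2 * Real.pi : ℝ) : ℂ) * Complex.I = 0 := by
    have : f (1, 2 * Real.pi) + ((2 * Real.pi : ℝ) : ℂ) * Complex.I - f (1, 0) =
      (f (1, 2 * Real.pi) - f (1, 0)) + ((2 * Real.pi : ℝ) : ℂ) * Complex.I := by ring
    rw [this, h2, zero_add] at c1'
    exact c1'
  have h4 : (2 * Real.pi : ℝ) = 0 := by
    rcases mul_eq_zero.mp h3 with h | h
    · exact_mod_cast h
    · exact absurd h Complex.I_ne_zero
  have := Real.pi_pos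
  linarith

end Pool.Agent.BezHen
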