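import Mathlib
import Pool.Agent.BezHen.Ring
import Pool.Agent.BezHen.Topo

set_option autoImplicit false

namespace Pool.Agent.BezHen

open Complex

/-- the point of the sphere of radius `r` with polar angle `π τ` and azimuth `θ`. -/
noncomputable def pt (r τ θ : ℝ) : P :=
  (r * (Real.sin (Real.pi * τ) * Real.cos θ), r * (Real.sin (Real.pi * τ) * Real.sin θ),
    r * Real.cos (Real.pi * τ))

theorem N2_pt (r τ θ : ℝ) : N2 (pt r τ θ) = 1 + r ^ 2 := by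
  unfold N2 pt
  have h1 := Real.sin_sq_add_cos_sq θ
  have h2 := Real.sin_sq_add_cos_sq (Real.pi * τ)
  simp only
  linear_combination (r ^ 2 * (Real.sin (Real.pi * τ)) ^ 2) * h1 + r ^ 2 * h2

theorem J_pt (r τ θ : ℝ) : J (pt r τ θ) = Real.sqrt (1 + r ^ 2) := by
  unfold J; rw [N2_pt]

/-- the unit vector `ζ` and the projector `ζ ζ^*`. -/
noncomputable def P0 (τ : ℝ) : ℂ := ((Real.cos (Real.pi * τ / 2) : ℝ) : ℂ) ^ 2
noncomputable def P3 (τ : ℝ) : ℂ := ((Real.sin (Real.pi * τ / 2) : ℝ) : ℂ) ^ 2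
noncomputable def Pz (τ : ℝ) : ℂ :=
  ((Real.cos (Real.pi * τ / 2) : ℝ) : ℂ) * ((Real.sin (Real.pi * τ / 2) : ℝ) : ℂ)

theorem ratio_bound {r : ℝ} (hr : 0 ≤ r) : |r / Real.sqrt (1 + r ^ 2) - 1| ≤ 1 / (1 + r ^ 2) := by
  have h1 : 0 < 1 + r ^ 2 := by positivity
  have h2 : 0 < Real.sqrt (1 + r ^ 2) := Real.sqrt_pos.mpr h1
  have h3 : Real.sqrt (1 + r ^ 2) ^ 2 = 1 + r ^ 2 := Real.sq_sqrt h1.le
  have h4 : r ≤ Real.sqrt (1 + r ^ 2) := Real.le_sqrt_of_sq_le (by linarith)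
  set s := Real.sqrt (1 + r ^ 2)
  have h5 : r / s ≤ 1 := (div_le_one h2).mpr h4
  rw [abs_of_nonpos (by linarith), ← h3]
  have h6 : -(r / s - 1) = (s - r) / s := by field_simp; ring
  rw [h6, div_le_div_iff₀ h2 (by positivity)]
  nlinarith [mul_nonneg hr (sub_nonneg.mpr h4)]

theorem base0_bound {r : ℝ} (hr : 0 ≤ r) (τ θ : ℝ) :
    ‖base 0 (pt r τ θ) - P0 τ‖ ≤ 1 / 2 * (1 / (1 + r ^ 2)) := by
  have h0 : base 0 (pt r τ θ) - P0 τ =
      (((r / Real.sqrt (1 + r ^ 2) - 1) * Real.cos (Real.pi * τ) / 2 : ℝ) : ℂ) := by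
    unfold base P0
    rw [if_pos rfl, J_pt]
    have h1 : Real.cos (Real.pi * τ / 2) ^ 2 = (1 + Real.cos (Real.pi * τ)) / 2 := by
      rw [Real.cos_sq]
      have : 2 * (Real.pi * τ / 2) = Real.pi * τ := by ring
      rw [this]; ring
    rw [← Complex.ofReal_pow, h1]
    simp only [pt]
    push_cast
    ring
  rw [h0, Complex.norm_real, Real.norm_eq_abs, abs_div, abs_mul]
  have h1 := ratio_bound hr
  have h2 := Real.abs_cos_le_one (Real.pi * τ)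
  have h3 : |(2 : ℝ)| = 2 := abs_of_pos two_pos
  rw [h3]
  have h4 : |r / Real.sqrt (1 + r ^ 2) - 1| * |Real.cos (Real.pi * τ)| ≤ 1 / (1 + r ^ 2) * 1 := by
    gcongr
  linarith

theorem exp_eq (θ : ℝ) : Complex.exp (θ * I) = Real.cos θ + Real.sin θ * I := by
  rw [Complex.exp_mul_I]; push_cast; rfl

theorem exp_neg_eq (θ : ℝ) : Complex.exp (-(θ * I)) = Real.cos θ - Real.sin θ * I := by
  have : (-(θ * I) : ℂ) = ((-θ : ℝ) : ℂ) * I := by push_cast; ring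
  rw [this, exp_eq, Real.cos_neg, Real.sin_neg]; push_cast; ring

theorem sin_half (τ : ℝ) : Real.sin (Real.pi * τ) =
    2 * Real.sin (Real.pi * τ / 2) * Real.cos (Real.pi * τ / 2) := by
  rw [← Real.sin_two_mul]
  congr 1
  ring

theorem norm_exp_I (θ : ℝ) : ‖Complex.exp (θ * I)‖ = 1 := Complex.norm_exp_ofReal_mul_I θ

theorem norm_exp_neg_I (θ : ℝ) : ‖Complex.exp (-(θ * I))‖ = 1 := by
  have : (-(θ * I) : ℂ) = ((-θ : ℝ) : ℂ) * I := by push_cast; ring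
  rw [this]
  exact Complex.norm_exp_ofReal_mul_I _

theorem offdiag_bound {r : ℝ} (hr : 0 ≤ r) (τ : ℝ) (z : ℂ) (hz : ‖z‖ = 1) :
    ‖(((r / Real.sqrt (1 + r ^ 2) - 1) * Real.sin (Real.pi * τ) / 2 : ℝ) : ℂ) * z‖
      ≤ 1 / 2 * (1 / (1 + r ^ 2)) := by
  rw [norm_mul, hz, mul_one, Complex.norm_real, Real.norm_eq_abs, abs_div, abs_mul]
  have h1 := ratio_bound hr
  have h2 := Real.abs_sin_le_one (Real.pi * τ)
  have h3 : |(2 : ℝ)| = 2 := abs_of_pos two_pos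
  rw [h3]
  have h4 : |r / Real.sqrt (1 + r ^ 2) - 1| * |Real.sin (Real.pi * τ)| ≤ 1 / (1 + r ^ 2) * 1 := by
    gcongr
  linarith

theorem base1_bound {r : ℝ} (hr : 0 ≤ r) (τ θ : ℝ) :
    ‖base 1 (pt r τ θ) - Pz τ * Complex.exp (-(θ * I))‖ ≤ 1 / 2 * (1 / (1 + r ^ 2)) := by
  have hs : (0 : ℝ) < Real.sqrt (1 + r ^ 2) := Real.sqrt_pos.mpr (by positivity)
  have hs' : ((Real.sqrt (1 + r ^ 2) : ℝ) : ℂ) ≠ 0 := by exact_mod_cast hs.ne'
  have h0 : base 1 (pt r τ θ) - Pz τ * Complex.exp (-(θ * I)) =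
      (((r / Real.sqrt (1 + r ^ 2) - 1) * Real.sin (Real.pi * τ) / 2 : ℝ) : ℂ) *
        Complex.exp (-(θ * I)) := by
    unfold base Pz
    rw [if_neg one_ne_zero, if_pos rfl, J_pt, exp_neg_eq, sin_half]
    simp only [pt]
    rw [sin_half]
    push_cast
    field_simp
  rw [h0]
  exact offdiag_bound hr τ _ (norm_exp_neg_I θ)

theorem base2_bound {r : ℝ} (hr : 0 ≤ r) (τ θ : ℝ) :
    ‖base 2 (pt r τ θ) - Pz τ * Complex.exp (θ * I)‖ ≤ 1 / 2 * (1 / (1 + r ^ 2)) := by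
  have hs : (0 : ℝ) < Real.sqrt (1 + r ^ 2) := Real.sqrt_pos.mpr (by positivity)
  have hs' : ((Real.sqrt (1 + r ^ 2) : ℝ) : ℂ) ≠ 0 := by exact_mod_cast hs.ne'
  have h0 : base 2 (pt r τ θ) - Pz τ * Complex.exp (θ * I) =
      (((r / Real.sqrt (1 + r ^ 2) - 1) * Real.sin (Real.pi * τ) / 2 : ℝ) : ℂ) *
        Complex.exp (θ * I) := by
    unfold base Pz
    rw [if_neg two_ne_zero, if_neg (by norm_num), J_pt, exp_eq, sin_half]
    simp only [pt]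
    rw [sin_half]
    push_cast
    field_simp
  rw [h0]
  exact offdiag_bound hr τ _ (norm_exp_I θ)

theorem one_le_of {a b c d : ℂ} {K : ℝ} (h : (1 : ℂ) = a + b + c + d) (ha : ‖a‖ ≤ K)
    (hb : ‖b‖ ≤ K) (hc : ‖c‖ ≤ K) (hd : ‖d‖ ≤ K) : 1 ≤ 4 * K := by
  have h1 : ‖(1 : ℂ)‖ ≤ ‖a‖ + ‖b‖ + ‖c‖ + ‖d‖ := by rw [h]; exact norm_add₄_le
  rw [norm_one] at h1
  linarith

/-- The topological obstruction: `vᵀ M w = 1` has no solution in bounded continuous functions. -/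
theorem obstruction {α : ℕ → P → ℂ}
    (hbase : ∀ n < 3, ∀ v, ‖α n v - base n v‖ ≤ 1 / 4 * (1 / N2 v))
    (V0 V1 W0 W1 : BoundedContinuousFunction P ℂ)
    (h : ∀ v, V0 v * (α 0 v * W0 v + α 1 v * W1 v) + V1 v * (α 2 v * W0 v + (1 - α 0 v) * W1 v) = 1) :
    False := by
  -- a common bound
  obtain ⟨Kb, hKb0, hV0, hV1, hW0, hW1⟩ : ∃ Kb : ℝ, 0 < Kb ∧ (∀ v, ‖V0 v‖ ≤ Kb) ∧
      (∀ v, ‖V1 v‖ ≤ Kb) ∧ (∀ v, ‖W0 v‖ ≤ Kb) ∧ (∀ v, ‖W1 v‖ ≤ Kb) := by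
    refine ⟨‖V0‖ + ‖V1‖ + ‖W0‖ + ‖W1‖ + 1, by positivity, ?_, ?_, ?_, ?_⟩
    · intro v; linarith [V0.norm_coe_le_norm v, norm_nonneg V1, norm_nonneg W0, norm_nonneg W1]
    · intro v; linarith [V1.norm_coe_le_norm v, norm_nonneg V0, norm_nonneg W0, norm_nonneg W1]
    · intro v; linarith [W0.norm_coe_le_norm v, norm_nonneg V1, norm_nonneg V0, norm_nonneg W1]
    · intro v; linarith [W1.norm_coe_le_norm v, norm_nonneg V1, norm_nonneg W0, norm_nonneg V0]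
  set r : ℝ := 2 * Kb with hr
  have hr0 : 0 ≤ r := by positivity
  have hden : 0 < 1 + r ^ 2 := by positivity
  let g : ℝ × ℝ → ℂ := fun q =>
    ((Real.cos (Real.pi * q.1 / 2) : ℝ) : ℂ) * W0 (pt r q.1 q.2) +
      ((Real.sin (Real.pi * q.1 / 2) : ℝ) : ℂ) * Complex.exp (-(q.2 * I)) * W1 (pt r q.1 q.2)
  have hptc : Continuous (fun q : ℝ × ℝ => pt r q.1 q.2) := by
    unfold pt; fun_prop
  have hg : Continuous g := by
    have h1 : Continuous (fun q : ℝ × ℝ => W0 (pt r q.1 q.2)) := W0.continuous.comp hptc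
    have h2 : Continuous (fun q : ℝ × ℝ => W1 (pt r q.1 q.2)) := W1.continuous.comp hptc
    refine Continuous.add (Continuous.mul ?_ h1) (Continuous.mul ?_ h2)
    · fun_prop
    · fun_prop
  have hg0 : ∀ q, g q ≠ 0 := by
    rintro ⟨τ, θ⟩ hq
    have hq' : ((Real.cos (Real.pi * τ / 2) : ℝ) : ℂ) * W0 (pt r τ θ) +
      ((Real.sin (Real.pi * τ / 2) : ℝ) : ℂ) * Complex.exp (-(θ * I)) * W1 (pt r τ θ) = 0 := hq
    set v := pt r τ θ with hv
    have hN : N2 v = 1 + r ^ 2 := N2_pt r τ θ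
    -- V^T P W = 0
    have hee : Complex.exp (θ * I) * Complex.exp (-(θ * I)) = 1 := by
      rw [← Complex.exp_add]; simp
    have hP : V0 v * (P0 τ * W0 v + Pz τ * Complex.exp (-(θ * I)) * W1 v) +
        V1 v * (Pz τ * Complex.exp (θ * I) * W0 v + P3 τ * W1 v) = 0 := by
      unfold P0 P3 Pz
      linear_combination (((Real.cos (Real.pi * τ / 2) : ℝ) : ℂ) * V0 v +
        ((Real.sin (Real.pi * τ / 2) : ℝ) : ℂ) * Complex.exp (θ * I) * V1 v) * hq'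
        - ((Real.sin (Real.pi * τ / 2) : ℝ) : ℂ) ^ 2 * V1 v * W1 v * hee
    have h03 : P3 τ = 1 - P0 τ := by
      unfold P0 P3
      have := Real.sin_sq_add_cos_sq (Real.pi * τ / 2)
      rw [← Complex.ofReal_pow, ← Complex.ofReal_pow, ← Complex.ofReal_one, ← Complex.ofReal_sub]
      congr 1
      linarith
    have e0 : ‖α 0 v - P0 τ‖ ≤ 3 / 4 * (1 / (1 + r ^ 2)) := by
      have h1 := hbase 0 (by norm_num) v
      have h2 := base0_bound hr0 τ θ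
      rw [hN] at h1
      have := norm_add_le (α 0 v - base 0 v) (base 0 v - P0 τ)
      rw [sub_add_sub_cancel] at this
      linarith
    have e1 : ‖α 1 v - Pz τ * Complex.exp (-(θ * I))‖ ≤ 3 / 4 * (1 / (1 + r ^ 2)) := by
      have h1 := hbase 1 (by norm_num) v
      have h2 := base1_bound hr0 τ θ
      rw [hN] at h1
      have := norm_add_le (α 1 v - base 1 v) (base 1 v - Pz τ * Complex.exp (-(θ * I)))
      rw [sub_add_sub_cancel] at this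
      linarith
    have e2 : ‖α 2 v - Pz τ * Complex.exp (θ * I)‖ ≤ 3 / 4 * (1 / (1 + r ^ 2)) := by
      have h1 := hbase 2 (by norm_num) v
      have h2 := base2_bound hr0 τ θ
      rw [hN] at h1
      have := norm_add_le (α 2 v - base 2 v) (base 2 v - Pz τ * Complex.exp (θ * I))
      rw [sub_add_sub_cancel] at this
      linarith
    have hdiff : (1 : ℂ) = V0 v * ((α 0 v - P0 τ) * W0 v) +
        V0 v * ((α 1 v - Pz τ * Complex.exp (-(θ * I))) * W1 v) +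
        V1 v * ((α 2 v - Pz τ * Complex.exp (θ * I)) * W0 v) +
        V1 v * (-(α 0 v - P0 τ) * W1 v) := by
      have h1 := h v
      rw [h03] at hP
      linear_combination (-1 : ℂ) * h1 + hP
    have hb : ∀ (a b c : ℂ), ‖a‖ ≤ Kb → ‖c‖ ≤ Kb → ‖b‖ ≤ 3 / 4 * (1 / (1 + r ^ 2)) →
        ‖a * (b * c)‖ ≤ 3 / 4 * (1 / (1 + r ^ 2)) * Kb ^ 2 := by
      intro a b c ha hc hb
      rw [norm_mul, norm_mul]
      calc ‖a‖ * (‖b‖ * ‖c‖) ≤ Kb * ((3 / 4 * (1 / (1 + r ^ 2))) * Kb) := by gcongr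
        _ = _ := by ring
    have hn : (1 : ℝ) ≤ 4 * (3 / 4 * (1 / (1 + r ^ 2)) * Kb ^ 2) := by
      have h2 := hb (V0 v) (α 0 v - P0 τ) (W0 v) (hV0 v) (hW0 v) e0
      have h3 := hb (V0 v) (α 1 v - Pz τ * Complex.exp (-(θ * I))) (W1 v) (hV0 v) (hW1 v) e1
      have h4 := hb (V1 v) (α 2 v - Pz τ * Complex.exp (θ * I)) (W0 v) (hV1 v) (hW0 v) e2
      have h5 := hb (V1 v) (-(α 0 v - P0 τ)) (W1 v) (hV1 v) (hW1 v) (by rw [norm_neg]; exact e0)
      exact one_le_of hdiff h2 h3 h4 h5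
    have hlt : 4 * (3 / 4 * (1 / (1 + r ^ 2)) * Kb ^ 2) < 1 := by
      have : 4 * (3 / 4 * (1 / (1 + r ^ 2)) * Kb ^ 2) = 3 * Kb ^ 2 / (1 + r ^ 2) := by
        field_simp
      rw [this, div_lt_one hden, hr]
      nlinarith [sq_nonneg Kb]
    linarith
  refine no_homotopy g hg hg0 ?_ (W0 (pt r 0 0)) (W1 (pt r 1 0)) ?_ ?_
  · intro t θ
    have h1 : pt r t (θ + 2 * Real.pi) = pt r t θ := by
      unfold pt
      rw [Real.cos_add_two_pi, Real.sin_add_two_pi]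
    have h2 : Complex.exp (-(((θ + 2 * Real.pi : ℝ) : ℂ) * I)) = Complex.exp (-(θ * I)) := by
      rw [exp_neg_eq, exp_neg_eq, Real.cos_add_two_pi, Real.sin_add_two_pi]
    simp only [g, h1, h2]
  · intro θ
    have h1 : pt r 0 θ = pt r 0 0 := by
      unfold pt; simp
    simp only [g, h1]
    simp
  · intro θ
    have h1 : pt r 1 θ = pt r 1 0 := by
      unfold pt; simp
    simp only [g, h1]
    simp
    ring

end Pool.Agent.BezHen
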